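import Pool.Agent.H431.FS.Main

/-!
# The canonical degrees of the curves on Fermat surfaces, and the number `Λ_X`

Let `k` be an algebraically closed field of characteristic zero, for instance `ℂ`. For a smooth surface
`X ⊂ ℙ³` of degree `m` we have `K_X = O(m - 4)`, and `K_X . C = (m - 4) deg C` for a curve `C` in `X`. Let
`Λ_X` be the supremum, over the sequences of curves in `X` whose geometric genera `g` tend to infinity, of
the upper limit of `K_X . C / (g - 1)`.

Let `X_m` be the Fermat surface `x₀ ^ m + x₁ ^ m + x₂ ^ m = x₃ ^ m`, `m ≥ 5`.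

1. `X_m` contains curves `C` of arbitrarily large genus `g` with
   `K . C ≥ (4 (m - 4) / m) (g - 1)`.
2. So `Λ_{X_m} ≥ 4 (m - 4) / m`, which tends to `4` for `m → ∞`: in Vojta's inequality
   `K . C ≤ (4 + ε) (g - 1) + B(ε)` the number `4` cannot be replaced by a smaller one, even for the
   smooth surfaces in `ℙ³`, which are simply connected and have ample canonical bundles. (The bounds for complete
   intersections in the problem tend to `2`; ratios near `4` were known for quotients of the bidisk.)
3. On every smooth surface `X` of degree `m ≥ 6` whose coefficients are generic one has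
   `K . C ≤ (2 (m - 4) / (m - 5)) (g - 1)` for all curves (this is the theorem of Xu and Clemens, in a form
   which is in the library); so `Λ_X < Λ_{X_m}` if `m ≥ 11`. Hence `Λ_X` and the best constants `A` in
   `K . C ≤ A (g - 1) + B` are not invariant under deformations.

Proof of 1. Let `κ (j + 1) ^ 2 = 4 κ j / (1 + κ j) ^ 2` (the ascending Landen transformation), with `κ 0`
transcendental over `k`, and `a₁ = κ 0 ^ 2`, `a₀ = κ (J + 1) ^ 2`. The point
`(a₀ : (1 - a₀) a₁ : (1 - a₀) (1 - a₁) : 1)` lies on the plane `v₀ + v₁ + v₂ = v₃`, and we take the curve of the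
`m`-th roots `(y₀ : y₁ : y₂ : 1)` of its coordinates. Its function field `L` contains the whole tower: an
automorphism of the algebraic closure of `L` which fixes `a₀` and `a₁` can replace `κ J` only by `1 / κ J`, which
is impossible as both ends of the tower vanish at a place over `κ 0 = 0`. The extension `L / k(κ 0)` is not
ramified outside `κ 0 ∈ {0, 1, -1, ∞}`, as it is generated by roots of units; so the vector field `κ (1 - κ ^ 2)
d/dκ` gives `2 g - 2 ≤ 2 deg κ 0`. The functions `κ j` have the same degree, and there is no cancellation in the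
height of the point, so that `m deg C = deg a₀ + deg a₁ = 4 deg κ 0`. As the ramification indices over the four
points are at least `2 ^ J` or `m`, the genus tends to infinity for `J → ∞`.
-/

set_option autoImplicit false

open FF Pool.Agent.H431.FS

namespace Pool.Agent.Results.MP_308c18_ag.FermatSurfaces

/-- **Canonical degrees of the curves on the Fermat surfaces and on generic surfaces.** `fermat k m` is the
Fermat surface of degree `m`, `Lambda X` is the number `Λ_X` of the problem, and `Generic k₀ X` says that
the ratios of the coefficients of `X` are algebraically independent over the subfield `k₀` (for example `ℚ`). -/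
theorem result {k : Type} [Field k] [CharZero k] [IsAlgClosed k] {m : ℕ} (hm : 5 ≤ m) :
    -- curves on the Fermat surface
    (∀ g₀ : ℝ, ∃ C : Curve (fermat k m (by omega)), g₀ ≤ C.genus ∧
      4 * (m - 4) / m * (C.genus - 1) ≤ C.canonicalDegree) ∧
    ((4 * (m - 4) / m : ℝ) : EReal) ≤ Lambda (fermat k m (by omega)) ∧
    -- generic surfaces
    ∀ (k₀ : Type) [Field k₀] [Algebra k₀ k] (X : Surface k), X.d = m → 6 ≤ m → Generic k₀ X →
      (∀ C : Curve X, C.canonicalDegree ≤ 2 * (m - 4) / (m - 5) * (C.genus - 1)) ∧
      Lambda X ≤ ((2 * (m - 4) / (m - 5) : ℝ) : EReal) ∧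
      (11 ≤ m → Lambda X < Lambda (fermat k m (by omega))) := by
  have h1 : ∀ g₀ : ℝ, ∃ C : Curve (fermat k m (by omega)), g₀ ≤ C.genus ∧
      4 * (m - 4) / m * (C.genus - 1) ≤ C.canonicalDegree := fun g₀ => exists_curve hm g₀
  have h2 : ((4 * (m - 4) / m : ℝ) : EReal) ≤ Lambda (fermat k m (by omega)) := le_Lambda _ _ h1
  refine ⟨h1, h2, ?_⟩
  intro k₀ _ _ X hd h6 hX
  have h3 : ∀ C : Curve X, C.canonicalDegree ≤ 2 * (m - 4) / (m - 5) * (C.genus - 1) := by
    intro C
    have := generic_canonicalDegree hX (by omega) C
    rwa [hd] at this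
  have h4 := Lambda_le X _ h3
  refine ⟨h3, h4, fun h11 => lt_of_lt_of_le (lt_of_le_of_lt h4 ?_) h2⟩
  rw [EReal.coe_lt_coe_iff]
  have h5 : (11 : ℝ) ≤ m := by exact_mod_cast h11
  rw [div_lt_div_iff₀ (by linarith) (by linarith)]
  nlinarith

end Pool.Agent.Results.MP_308c18_ag.FermatSurfaces
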