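import Pool.Agent.H910.Cf.Pst
import Pool.Graph.R_pool_sql_team_seeded_64922ed1.X180.CD.Can
import Pool.Graph.R_pool_sql_team_seeded_64922ed1.X180.CD.Fin

/-!
# Canonical degrees of the curves on surfaces with ramified maps to the space of the binary forms

Let `k` be an algebraically closed field of characteristic zero (for instance the complex numbers) and
`X` a projective surface over `k` in the projective space of dimension `c + 2`, with the function
field `K` and the generic point `x` (homogeneous coordinates in `K`; `coords k x = ⊤` says that their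
ratios generate `K`). A curve `C` in `X` is given by its generic point `z` (`OnVar k x z`), with
coordinates in its function field `E`; then `pht k z` is the degree of `C`, `canDeg` is `2 g - 2`,
where `g` is the geometric genus of `C`, and for smooth `X` the canonical degree `K_X · C` is defined by
`K_X = γ^* O(1) - 3 H`, where `γ` is the Gauss map (`IsCanDegree`, from the library).

`P^(n + 1)` is the space of the binary forms `y` of degree `n + 1`. A rational map `y` from `X` to
this space, with image not contained in the discriminant hypersurface, is *ramified* (`RamP`) if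
there are distinct numbers `a i` and weights `μ i ≤ M`, `c i` and `cD` with
`(n + 1) (∑ c i + 2 n cD) + 2 M < ∑ μ i`, such that at all places of the points of `X` (with
coordinates in a field extension of `k`, outside of a proper closed subset) the orders of contact
`s i` of the image with the hyperplanes of the forms which vanish at `(1 : a i)` and `t` with the
discriminant hypersurface satisfy one of the following conditions: `t = 0` and each `s i` is zero or
at least `M / (M - μ i)`; or `∑ c i s i + cD t ≥ M`.

**Theorem.** (I) Let `y l` be finitely many dominant rational maps from `X` to projective varieties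
`Y l` with `CurveBound` (`deg ≤ A max (2 g - 2, 0)` for all curves outside of a proper closed subset;
for instance curves of genus at least two), and let `z l` be finitely many ramified maps, such that
not all these maps are constant. If `X` is of general type then there are `A` and `B` such that **all**
curves `C` in `X` satisfy

  `deg C ≤ A (2 g - 2) + B` and `K_X · C ≤ A (2 g - 2) + B`,

the inequality of the question. The same holds, without the assumption that `X` is of general type, if
the map to the product is generically finite over its image, or if its image is a curve and the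
geometric generic fibre is a curve of genus at least two (`HypFibres`).

(II) A surface with a generically finite ramified map is of general type (so (I) holds for all of them),
and outside of a proper closed subset all curves in `X` have genus at least two, and
`deg C ≤ A (2 g - 2)`.

(III) A numerical criterion for ramified maps: products of powers of the values at the points
`(1 : a i)` and of the discriminant of `y` are powers in `K` up to constants, and there are weights
for which all possible orders of contact satisfy the condition.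

(IV) Explicit constants. Let `a i`, `i ≤ r`, be distinct numbers, `2 ≤ r`, `r + 3 < m (r - 1)`, let
`Y(x) = (Y 0 (x), Y 1 (x), Y 2 (x))` be forms of degree `m` in `x 0, ..., x r`, and let `W` be a
surface in `P^(r + 1)` with the equations `Y(x) (1 : a i) = x i ^ m` and
`disc Y(x) = x (r + 1) ^ (2 m)` (`disc` is the discriminant of quadratic forms), for instance the
complete intersection of the `r - 2` Fermat equations of degree `m` which say that the `x i ^ m` are the
values of a quadratic form at the `a i`, and of the last equation, with the dualizing sheaf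
`O(r m - r - 2)`. All curves `C` in `W` which are not contained in a coordinate hyperplane satisfy

  `(m (r - 1) - (r + 2)) (r m - r - 2) deg C ≤ 4 (r m - r - 2) max (g - 1, 0)`,

so `K_W · C ≤ α (g - 1)` with `α = 4 (r m - r - 2) / (m (r - 1) - (r + 2))`, which tends to
`4 r / (r - 1)` for `m → ∞`, and to `4` for `r, m → ∞`. (On the minimal resolution `X` of `W` the
canonical divisor is the inverse image of `K_W` minus an effective divisor, so
`K_X · C ≤ α (g - 1)` for all curves in `X` which do not lie over a coordinate hyperplane.)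

`IsCanDegree` : `Pool/Graph/R_pool_sql_team_seeded_64922ed1/X180/CD/Defs.lean`; `CurveBound`,
`OnVar` : library, `Y216`; `GeneralType` : `Pool/Graph/R_seed8/W602/GT/Defs.lean`; `HypFibres` :
`Pool/Agent/H916/RatRel.lean`; `hyp`, `dsc` : `Pool/Agent/H910/Vf/Defs.lean`; `Ram`, `Gen` :
`Pool/Agent/H910/Cf/Defs.lean`; `RamP`, `Covering`, `OnCyclic` : `Pool/Agent/H910/Cf/Cdf.lean`; `Root`,
`Wts` : `Pool/Agent/H910/Cf/Crit.lean`.
-/

set_option autoImplicit false
set_option linter.overlappingInstances false

open FF Pool.Agent.H916 Pool.Agent.H910.Cf MvPolynomial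
open Pool.Agent.W602.GT (coords IsForm GeneralType val)
open Pool.Agent.Y216 (OnVar CurveBound)
open Pool.Agent.X180.CD (IsCanDegree exists_bound can_bound)
open Pool.Agent.W603.PV (pht)
open Pool.Agent.W603.LV (canDeg)
open Pool.Agent.H910.Vf (hyp dsc)

namespace Pool.Agent.Results.MP_308c18_ag.SurfacesOverBinaryForms

/-- **The inequality of the question**, for all curves in the surface with the generic point `x`: there
are `A` and `B` such that the degree and the canonical degree of all curves of geometric genus `g` are
at most `A (2 g - 2) + B`. -/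
def DegreesBounded (k : Type) [Field k] {c : ℕ} {K : Type} [Field K] [Algebra k K]
    (x : Fin (c + 2 + 1) → K) : Prop :=
  ∃ A B : ℕ, ∀ (E : Type) [Field E] [Algebra k E] [IsFF k E] (z : Fin (c + 2 + 1) → E),
    OnVar k x z → coords k z = ⊤ → pht k z ≤ A * canDeg k E + B ∧
      ∀ κ, IsCanDegree k x z κ → κ ≤ A * canDeg k E + B

theorem pht_pos {k : Type} [Field k] [CharZero k] [IsAlgClosed k] {E : Type} [Field E]
    [Algebra k E] [IsFF k E] {N : ℕ} {z : Fin (N + 1) → E} (hgz : coords k z = ⊤) :
    0 < pht k z := by
  by_contra hcon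
  push Not at hcon
  have hall : ∀ a b, z a / z b ∈ Set.range (algebraMap k E) := by
    intro a b
    by_cases hb : z b = 0
    · exact ⟨0, by rw [hb, div_zero, map_zero]⟩
    by_cases ha : z a = 0
    · exact ⟨0, by rw [ha, zero_div, map_zero]⟩
    have h1 := Pool.Agent.W603.CX.hgt_le_pht (k := k) z ha hb
    obtain ⟨c, hc⟩ := Pool.Agent.W603.LV.const_of_hgt (k := k) (f := z a / z b) (h1.trans hcon)
    exact ⟨c, hc.symm⟩
  have hbot : coords k z ≤ ⊥ := by
    unfold coords
    rw [IntermediateField.adjoin_le_iff]
    rintro u ⟨a, b, -, rfl⟩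
    exact IntermediateField.mem_bot.2 (hall a b)
  rw [hgz, top_le_iff] at hbot
  have h1 : Algebra.trdeg k E = 1 := (inferInstance : IsFF k E).trdeg
  have h2 : Algebra.IsAlgebraic k E := by
    refine ⟨fun e => ?_⟩
    have h3 : e ∈ (⊥ : IntermediateField k E) := by rw [hbot]; exact IntermediateField.mem_top
    obtain ⟨c, rfl⟩ := IntermediateField.mem_bot.1 h3
    exact isAlgebraic_algebraMap c
  have h4 : Algebra.trdeg k E = 0 := trdeg_eq_zero_iff.2 h2
  rw [h4] at h1
  exact zero_ne_one h1

theorem bounded_of_curve {k K : Type} [Field k] [IsAlgClosed k] [CharZero k] [Field K] [Algebra k K]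
    {c : ℕ} {x : Fin (c + 2 + 1) → K} (hgen : coords k x = ⊤) (hdim : Algebra.trdeg k K = (2 : ℕ))
    (h : CurveBound k x) : DegreesBounded k x := by
  obtain ⟨G, hG, hGx, A, hA⟩ := h
  obtain ⟨B, hB⟩ := exists_bound hgen hdim hG hGx
  obtain ⟨D, hD⟩ := can_bound (k := k) x
  refine ⟨(D + 1) * A, (D + 1) * (2 * A + B), fun E _ _ _ z hz hgz => ?_⟩
  have hcan : -2 ≤ canDeg k E := Pool.Agent.H916.canDeg_ge_neg_two
  have hA0 : (0 : ℤ) ≤ A := Int.natCast_nonneg _
  have hB0 : (0 : ℤ) ≤ B := Int.natCast_nonneg _
  have hD0 : (0 : ℤ) ≤ D := Int.natCast_nonneg _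
  have h1 : pht k z ≤ A * canDeg k E + (2 * A + B) := by
    by_cases hzG : val z G = 0
    · have h2 := hB E z (Function.ne_iff.2 hz.1) hgz hzG hz.2
      nlinarith
    · have h2 := hA E z hz hzG
      rcases max_cases (canDeg k E) 0 with ⟨h3, h4⟩ | ⟨h3, h4⟩ <;> rw [h3] at h2 <;> nlinarith
  have h2 : (0 : ℤ) ≤ A * canDeg k E + (2 * A + B) := by nlinarith
  have h3 : (D : ℤ) * pht k z ≤ D * (A * canDeg k E + (2 * A + B)) :=
    mul_le_mul_of_nonneg_left h1 hD0
  have h4 : (0 : ℤ) ≤ D * (A * canDeg k E + (2 * A + B)) := mul_nonneg hD0 h2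
  push_cast
  constructor
  · nlinarith
  · intro κ hκ
    have h5 := hD E z κ hz hκ
    nlinarith

/-- **Canonical degrees of the curves on surfaces with ramified maps to the space of the binary
forms.** See the explanation at the beginning of the file. -/
theorem result {k : Type} [Field k] [IsAlgClosed k] [CharZero k] :
    (∀ (K : Type) [Field K] [Algebra k K] (c : ℕ) (x : Fin (c + 2 + 1) → K), x ≠ 0 →
      coords k x = ⊤ → Algebra.trdeg k K = (2 : ℕ) →
      (∀ (r r' : ℕ) (N : Fin r → ℕ) (y : ∀ l, Fin (N l + 1) → K) (n : Fin r' → ℕ)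
        (z : ∀ l, Fin (n l + 2) → K), (∀ l, y l ≠ 0) → (∀ l, CurveBound k (y l)) →
        (∀ l, RamP k x (z l)) →
        1 ≤ Algebra.trdeg k ↥((⨆ l, coords k (y l)) ⊔ ⨆ l, coords k (z l)) →
        (GeneralType k K 2 ∨ HypFibres ((⨆ l, coords k (y l)) ⊔ ⨆ l, coords k (z l))) →
          DegreesBounded k x) ∧
      (∀ (n : ℕ) (y : Fin (n + 2) → K), RamP k x y → Algebra.IsAlgebraic (coords k y) K →
        GeneralType k K 2 ∧ ∃ G : MvPolynomial (Fin (c + 2 + 1)) k, IsForm G ∧ val x G ≠ 0 ∧
          ∃ A : ℕ, ∀ (E : Type) [Field E] [Algebra k E] [IsFF k E] (z : Fin (c + 2 + 1) → E),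
            OnVar k x z → coords k z = ⊤ → val z G ≠ 0 →
              0 < canDeg k E ∧ pht k z ≤ A * canDeg k E) ∧
      (∀ (n q r : ℕ) (y : Fin (n + 2) → K) (a : Fin q → k) (m : Fin r → ℕ) (c : Fin r → Fin q → ℕ)
        (d : Fin r → ℕ), Function.Injective a → Gen a y → (∀ l, Root a y (m l) (c l) (d l)) →
        (Wts n fun s t => ∀ l, m l ∣ ∑ i, c l i * s i + d l * t) → RamP k x y)) ∧
    (∀ (r m : ℕ) (a : Fin (r + 1) → k) (Y : Fin (1 + 2) → MvPolynomial (Fin (r + 1)) k),
      Covering m a Y → 2 ≤ r → r + 3 < m * (r - 1) →
      ∀ (E : Type) [Field E] [Algebra k E] [IsFF k E] (f : Fin (r + 2) → E), OnCyclic m a Y f →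
        ((m : ℤ) * (r - 1) - (r + 2)) * (((r : ℤ) * m - r - 2) * pht k f) ≤
          2 * ((r : ℤ) * m - r - 2) * max (canDeg k E) 0) := by
  refine ⟨fun K _ _ c x hx hgen hdim => ⟨?_, ?_, ?_⟩, ?_⟩
  · intro r r' N y n z hy hyc hz htr h
    have h1 := (prj_mixed hx hgen r r' N y n z hy hz (by
      rw [hdim]
      have : ((2 : ℕ) : Cardinal) = 1 + 1 := by norm_num
      rw [this]
      exact add_le_add htr le_rfl)).2.2 hyc
    refine bounded_of_curve hgen hdim ?_
    rcases h with h | h
    · exact h1.1 ⟨2, h⟩
    · exact h1.2.2 h
  · intro n y hy halg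
    obtain ⟨G, hG, hGx, h1⟩ := prj_single hx hgen hy halg
    have hon : OnVar k x x := ⟨Function.ne_iff.1 hx, fun H _ hH => hH⟩
    obtain ⟨h2, -, -⟩ := h1 K x hon hgen hGx 2 (by norm_num) hdim
    obtain ⟨G', hG', hGx', A, hgt, hA⟩ := prj_all hx hgen hy halg
    refine ⟨h2, G', hG', hGx', A, fun E _ _ _ z hz hgz hzG => ?_⟩
    have h3 := hA E z hz hzG
    have h4 := pht_pos hgz
    rcases max_cases (canDeg k E) 0 with ⟨h5, h6⟩ | ⟨h5, h6⟩
    · rw [h5] at h3
      refine ⟨?_, h3⟩
      rcases h6.lt_or_eq with h7 | h7
      · exact h7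
      · rw [← h7, mul_zero] at h3
        omega
    · rw [h5, mul_zero] at h3
      omega
  · exact fun n q r y a m c d ha hy hroot hw => ramP_criterion hx hgen ha hy hroot hw
  · intro r m a Y hY hr hm E _ _ _ f hf
    have hm1 : 1 ≤ m := by
      by_contra h
      have : m = 0 := by omega
      rw [this, zero_mul] at hm
      omega
    have h1 := cyc_curve hm1 hY.1 (n := 1) (by omega) le_rfl hf
    have h2 : (0 : ℤ) ≤ (r : ℤ) * m - r - 2 := by
      obtain ⟨r', rfl⟩ : ∃ r', r = r' + 1 := ⟨r - 1, by omega⟩
      rw [Nat.add_sub_cancel] at hm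
      have h3 : ((r' + 1 + 3 : ℕ) : ℤ) < ((m * r' : ℕ) : ℤ) := by exact_mod_cast hm
      push_cast at h3 ⊢
      nlinarith
    have h3 := mul_le_mul_of_nonneg_left h1 h2
    push_cast at h3
    linarith

end Pool.Agent.Results.MP_308c18_ag.SurfacesOverBinaryForms
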