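import Pool.Agent.H918.H.Tower

/-!
# Canonical degrees of the curves on surfaces fibred over an elliptic curve

The surfaces of the theorem. `K` satisfies `LowFibred` if it is the function field of a projective
surface `X = {F = 0}` of general type (which may be singular) with a holomorphic map `α` to an elliptic
curve `ℂ / Λ` which is given by forms `A` (`WForms`: the composition of `α` with the embedding by
`(1 : ℘ : ℘')`), such that

* `X` has, for a finite set `B` of points of the elliptic curve, a semistable reduction which is
  unramified outside of the fibres over `B` (`HasReduction`; by the theorems of Deligne and Mumford and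
  of Arakelov all smooth projective surfaces of general type with a holomorphic map with connected
  fibres to an elliptic curve satisfy this), and a form which is not zero on `X` is zero on the fibres
  over `B`;
* all closed curves of geometric genus at most one in `X` are contained in fibres of `α`
  (`LowInFibres`).

`HypTower` is the smallest class of function fields which contains these and is closed under rational
maps, with relative dimension zero or with a curve of genus at least two as geometric generic fibre, to
products of members of the class.

**Theorem.** (I) If `X` is a surface with function field in `HypTower` (so all models and all surfaces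
with a generically finite rational map to a surface with `LowFibred`), in the projective space of
dimension `c + 2`, then there are `A` and `B` such that **all** curves `C` in `X`, of any geometric
genus `g`, satisfy

  `deg C ≤ A (2 g - 2) + B` and `K_X · C ≤ A (2 g - 2) + B`

(`DegreesBounded`; for smooth `X` the canonical degree `K_X · C` is the number `κ` with `IsCanDegree`).

(II) For all varieties `X` with function field in `HypTower` there are `A` and a proper closed subset
`Z` such that `deg f ≤ A max (2 g - 2, 0)` for all maps `f` from curves of genus `g` to `X` whose image
is not contained in `Z` (`CurveBound`).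

(III) The degree over the elliptic curve. Let `X = {F = 0}` be an irreducible projective variety of any
dimension with a holomorphic map `α` to an elliptic curve such that `X` has a semistable reduction
which is unramified outside of finitely many fibres, and such that there is no entire curve `g` in `X`
with `α (g z) = z` modulo the periods. Then there is `N` such that for all maps `f` from curves of
genus `g` to `X`, with image not in `{A 0 = 0}`, the degree of `α ∘ f` is at most `N max (2 g - 2, 0)`
(`hgt` of the coordinate `℘` is twice this degree).

The proof of (III): if the degree is larger, then the map from the curve to the elliptic curve has a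
holomorphic section over the image of a disc of radius `R` in the plane (Riemann-Hurwitz and gluing of
the branches), so `X` contains discs of radius `R` in the direction of the elliptic curve, which is
impossible for large `R` because of the rigidity of the semistable reduction.
-/

set_option autoImplicit false
set_option linter.overlappingInstances false

open FF Pool.Agent.W603.LV Pool.Agent.W603.PV Pool.Agent.W602.GT Pool.Agent.N154.GG
open Pool.Agent.Y216 (OnVar CurveBound)
open Pool.Agent.H918.SS (ProjVariety HasReduction)
open Pool.Agent.H918.PF (WForms)
open Pool.Agent.H918.AH

namespace Pool.Agent.Results.MP_308c18_ag.SurfacesOverEllipticCurves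

/-- **Canonical degrees of the curves on surfaces fibred over an elliptic curve.** See the explanation
at the beginning of the file. -/
theorem result :
    (∀ (K : Type) [Field K] [Algebra ℂ K], HypTower K → Algebra.trdeg ℂ K = (2 : ℕ) →
      ∀ (c : ℕ) (x : Fin (c + 2 + 1) → K), coords ℂ x = ⊤ → DegreesBounded x) ∧
    (∀ (K : Type) [Field K] [Algebra ℂ K], HypTower K → ∀ (M : ℕ) (x : Fin (M + 1) → K), x ≠ 0 →
      coords ℂ x = ⊤ → CurveBound ℂ x) ∧
    (∀ (n : ℕ) (ι : Type) (F : ι → MvPolynomial (Fin (n + 1)) ℂ) (d : ℕ) (K : Type) [Field K]
      [Algebra ℂ K] (y : Fin (n + 1) → K) (Λ : PeriodPair) (α : (Fin (n + 1) → ℂ) → ℂ ⧸ Λ.lattice)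
      (A : Fin 3 → MvPolynomial (Fin (n + 1)) ℂ) (B : Set (ℂ ⧸ Λ.lattice)), ProjVariety F d y →
      HolToTorus (Cone F) Λ α → WForms F Λ α A → B.Finite → HasReduction F α B →
      (∀ g, HolIn F g → ¬ ∀ z, α (g z).rep = Submodule.Quotient.mk z) →
      ∃ N : ℕ, ∀ (L : Type) [Field L] [Algebra ℂ L] [IsFF ℂ L] (f : Fin (n + 1) → L),
        OnVar ℂ y f → val f (A 0) ≠ 0 →
          hgt ℂ (val f (A 1) / val f (A 0)) ≤ N * max (canDeg ℂ L) 0) := by
  refine ⟨fun K _ _ hK hdim c x hgen => ?_, fun K _ _ hK M x hx hgen =>
    hK.curveBound M x hx hgen, ?_⟩
  · refine degreesBounded hgen hdim (hK.curveBound _ x ?_ hgen)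
    rintro rfl
    have h1 : coords ℂ (0 : Fin (c + 2 + 1) → K) ≤ ⊥ := by
      unfold coords
      rw [IntermediateField.adjoin_le_iff]
      rintro u ⟨a, b, h, -⟩
      exact absurd rfl h
    rw [hgen, top_le_iff] at h1
    have h2 : Algebra.IsAlgebraic ℂ K := by
      refine ⟨fun e => ?_⟩
      have h3 : e ∈ (⊥ : IntermediateField ℂ K) := by rw [h1]; exact IntermediateField.mem_top
      obtain ⟨c, rfl⟩ := IntermediateField.mem_bot.1 h3
      exact isAlgebraic_algebraMap c
    have h4 : Algebra.trdeg ℂ K = 0 := trdeg_eq_zero_iff.2 h2
    rw [h4] at hdim
    exact absurd hdim.symm (by norm_num)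
  · intro n ι F d K _ _ y Λ α A B hX hα hA hB hR hS
    obtain ⟨N, hN⟩ := hgt_bound hX hα hA hB hR hS
    exact ⟨N, fun L _ _ _ f hf h0 => (hN L f hf h0).1⟩

end Pool.Agent.Results.MP_308c18_ag.SurfacesOverEllipticCurves
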