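import Pool.Agent.H435.CV.Top

/-!
# The canonical degrees of the curves on all very general complete intersection surfaces

Let `k` be an algebraically closed field of characteristic zero, for instance `ℂ`, and let `X` be a very
general complete intersection surface over `k`: the surface `F a = 0` (`a ∈ A`) in projective space of
dimension `n = |A| + 2`, where the `F a` are forms of degrees `d a ≥ 2` whose coefficients, all together, are
algebraically independent over the rational numbers. Its canonical bundle is `O(c)`, `c = ∑ d a - n - 1`, and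
`K_X . C = c deg C` for a curve `C` in `X`. Let `Λ_X` be the supremum, over the sequences of curves in `X`
whose geometric genera `g` tend to infinity, of the upper limit of `K_X . C / (g - 1)`.

If `c ≥ 1` (that is, if `X` is of general type), we prove `K_X . C ≤ 4 (g - 1)` for all curves `C` in `X`
(with arbitrary singularities), so `Λ_X ≤ 4`; and if `X` is a surface in `ℙ³`, or if the sum of the numbers
`d a + 1` over the `a` with `d a ≤ 4` is at least `2 n - 1` (this is so if all the degrees are at most `4`),
the better bound `K_X . C ≤ (4 c / (2 c - 1)) (g - 1)`.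
-/

set_option autoImplicit false

namespace Pool.Agent.Results.MP_308c18_ag.VeryGeneralSurfaces

open FF MvPolynomial Filter

/-- The coefficients of the forms `F a` of degrees `d a`, all together, are algebraically independent over
the rational numbers. -/
def General {k : Type} [Field k] [CharZero k] {A : Type} {n : ℕ} (d : A → ℕ)
    (F : A → MvPolynomial (Fin (n + 1)) k) : Prop :=
  AlgebraicIndependent ℚ
    fun p : (a : A) × {I : Fin (n + 1) →₀ ℕ // I.degree = d a} => (F p.1).coeff p.2.1

/-- A very general complete intersection surface in the projective space of dimension `n = |A| + 2` over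
`k`, given by its equations: forms `F a` of degrees `d a ≥ 2` whose coefficients, all together, are
algebraically independent over the rational numbers. -/
structure Surface (k : Type) [Field k] [CharZero k] where
  /-- the indices of the equations -/
  A : Type
  [fin : Fintype A]
  /-- the dimension of the projective space -/
  n : ℕ
  dim : n = Fintype.card A + 2
  /-- the degrees -/
  d : A → ℕ
  two_le : ∀ a, 2 ≤ d a
  /-- the equations -/
  F : A → MvPolynomial (Fin (n + 1)) k
  hom : ∀ a, (F a).IsHomogeneous (d a)
  general : General d F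

attribute [instance] Surface.fin

/-- The canonical bundle of `X` is `O(c)`, `c = ∑ d a - n - 1`. -/
def Surface.c {k : Type} [Field k] [CharZero k] (X : Surface k) : ℤ := (∑ a, (X.d a : ℤ)) - X.n - 1

/-- The point with homogeneous coordinates `x` in `L` lies on `X`. -/
def Surface.Contains {k : Type} [Field k] [CharZero k] (X : Surface k) {L : Type} [Field L]
    [Algebra k L] (x : Fin (X.n + 1) → L) : Prop := ∀ a, aeval x (X.F a) = 0

/-- The ratios of the coordinates of `x` generate `L` over `k`. -/
def Generates (k : Type) {L : Type} [Field k] [Field L] [Algebra k L] {n : ℕ}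
    (x : Fin (n + 1) → L) : Prop :=
  IntermediateField.adjoin k {f : L | ∃ i j, x j ≠ 0 ∧ f = x i / x j} = ⊤

open Classical in
/-- `2 g - 2`, where `g` is the genus of the smooth projective curve with function field `L`: minus the
degree of the divisor of a nonzero rational vector field `D` (a derivation of `L` over `k`), whose order
at the place `P` is the order of `D t`, where `t` is an element of order `1` at `P`. It does not depend
on the choice of `D` and of the elements `t`. -/
noncomputable def twoGenusSubTwo (k L : Type) [Field k] [Field L] [Algebra k L] : ℤ :=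
  if h : ∃ D : Derivation k L L, D ≠ 0 then - ∑ᶠ P : Place k L, P.ord (h.choose P.surj.choose)
  else 0

/-- A curve `C` (reduced, irreducible, closed) on the surface `X`, given by its function field `L` (a
function field of one variable over `k`) and its generic point `x`, in homogeneous coordinates in `L`:
the ratios of the coordinates generate `L`. The smooth projective curve with the function field `L` is the
normalisation of `C`. -/
structure Curve {k : Type} [Field k] [CharZero k] (X : Surface k) where
  /-- the function field -/
  L : Type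
  [isField : Field L]
  [isAlgebra : Algebra k L]
  [isFF : IsFF k L]
  /-- the generic point -/
  x : Fin (X.n + 1) → L
  ne_zero : x ≠ 0
  on_surface : X.Contains x
  gen : Generates k x

attribute [instance] Curve.isField Curve.isAlgebra Curve.isFF

namespace Curve

variable {k : Type} [Field k] [CharZero k] {X : Surface k}

/-- The degree of the curve: minus the sum, over the points `P` of the normalisation (the discrete
valuations of `L` which are trivial on `k`), of the minimum of the orders of the nonzero coordinates
of `x`. -/
noncomputable def degree (C : Curve X) : ℤ :=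
  - ∑ᶠ P : Place k C.L, ⨅ i : {i // C.x i ≠ 0}, P.ord (C.x i)

/-- The geometric genus of the curve: the genus of its normalisation. -/
noncomputable def genus (C : Curve X) : ℝ := twoGenusSubTwo k C.L / 2 + 1

/-- The canonical degree `K_X . C = c deg C`. -/
noncomputable def canonicalDegree (C : Curve X) : ℝ := X.c * C.degree

end Curve

/-- `Λ_X`: the supremum, over the sequences of curves `C n` on `X` of genus `g n > 1` with `g n → ∞`, of
the upper limit of `K_X . C n / (g n - 1)`. -/
noncomputable def Lambda {k : Type} [Field k] [CharZero k] (X : Surface k) : EReal :=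
  ⨆ (C : ℕ → Curve X) (_ : ∀ n, 1 < (C n).genus)
    (_ : Tendsto (fun n => (C n).genus) atTop atTop),
    limsup (fun n => (((C n).canonicalDegree / ((C n).genus - 1) : ℝ) : EReal)) atTop

/-- `K_X . C ≤ b (g - 1)` for all curves `C` in `X`, and so `Λ_X ≤ b`. -/
def BoundedBy {k : Type} [Field k] [CharZero k] (X : Surface k) (b : ℝ) : Prop :=
  (∀ C : Curve X, C.canonicalDegree ≤ b * (C.genus - 1)) ∧ Lambda X ≤ (b : EReal)

theorem Lambda_le {k : Type} [Field k] [CharZero k] (X : Surface k) (a : ℝ)
    (h : ∀ C : Curve X, C.canonicalDegree ≤ a * (C.genus - 1)) : BoundedBy X a := by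
  refine ⟨h, ?_⟩
  unfold Lambda
  refine iSup_le fun C => iSup_le fun h1 => iSup_le fun _ => ?_
  refine limsup_le_of_le (h := Eventually.of_forall fun n => ?_)
  have h4 := h1 n
  rw [EReal.coe_le_coe_iff, div_le_iff₀ (by linarith)]
  exact h (C n)

theorem nonconstant {k : Type} [Field k] [CharZero k] [IsAlgClosed k] {X : Surface k}
    (C : Curve X) : ∃ a b, C.x b ≠ 0 ∧ Transcendental k (C.x a / C.x b) := by
  by_contra hcon
  push Not at hcon
  obtain ⟨t, ht⟩ := IsFF.exists_transcendental (k := k) (K := C.L)
  have h1 : Algebra.IsAlgebraic k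
      (IntermediateField.adjoin k {f : C.L | ∃ i j, C.x j ≠ 0 ∧ f = C.x i / C.x j}) := by
    refine IntermediateField.isAlgebraic_adjoin ?_
    rintro f ⟨i, j, hj, rfl⟩
    have h2 := hcon i j hj
    unfold Transcendental at h2
    rw [not_not] at h2
    exact h2.isIntegral
  have h0 : IntermediateField.adjoin k {f : C.L | ∃ i j, C.x j ≠ 0 ∧ f = C.x i / C.x j} = ⊤ :=
    C.gen
  rw [h0] at h1
  have h2 := h1.isAlgebraic (⟨t, IntermediateField.mem_top⟩ :
    (⊤ : IntermediateField k C.L))
  exact ht ((isAlgebraic_algebraMap_iff (algebraMap (⊤ : IntermediateField k C.L) C.L).injective).2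
    h2)

/-- **The canonical degrees of the curves on very general complete intersection surfaces.**
Let `X` be a very general complete intersection surface of degrees `d a ≥ 2` with canonical bundle `O(c)`,
`c ≥ 1`. Then `K_X . C ≤ 4 (g - 1)` for all curves `C` in `X`, and `Λ_X ≤ 4`. If `c ≥ 2`, then
`K_X . C ≤ (2 c / (c - 1)) (g - 1)` and `Λ_X ≤ 2 c / (c - 1)`. If `X` is a surface in `ℙ³`, or if the sum of
the numbers `d a + 1` over the `a` with `d a ≤ 4` is at least `2 n - 1` (this is so if all the degrees are at
most `4`), then `K_X . C ≤ (4 c / (2 c - 1)) (g - 1)` and `Λ_X ≤ 4 c / (2 c - 1)`. -/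
theorem result (k : Type) [Field k] [CharZero k] [IsAlgClosed k] (X : Surface k) (hc : 1 ≤ X.c) :
    BoundedBy X 4 ∧ (2 ≤ X.c → BoundedBy X (2 * X.c / (X.c - 1))) ∧
    ((X.n = 3 ∨ 2 * X.n - 1 ≤ ∑ a with X.d a ≤ 4, (X.d a + 1)) →
      BoundedBy X (4 * X.c / (2 * X.c - 1))) := by
  classical
  have hcs : X.c = ((∑ a, X.d a : ℕ) : ℤ) - X.n - 1 := by
    unfold Surface.c
    rw [Nat.cast_sum]
  have hsum : X.n + 2 ≤ ∑ a, X.d a := by
    have h2 : (X.n : ℤ) + 2 ≤ ((∑ a, X.d a : ℕ) : ℤ) := by linarith
    exact_mod_cast h2
  have hcan : ∀ C : Curve X, twoGenusSubTwo k C.L = Pool.Agent.W603.LV.canDeg k C.L := fun C => by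
    have h : ∃ D : Derivation k C.L C.L, D ≠ 0 := Pool.Agent.W603.LV.exists_der
    unfold twoGenusSubTwo
    rw [dif_pos h, Pool.Agent.W603.LV.canDeg_eq h.choose_spec]
    rfl
  have hdeg : ∀ C : Curve X, C.degree = Pool.Agent.W603.PV.pht k C.x := fun _ => rfl
  have hgen : ∀ C : Curve X, C.genus - 1 = (twoGenusSubTwo k C.L : ℝ) / 2 := fun C => by
    unfold Curve.genus
    ring
  have hcR : (1 : ℝ) ≤ X.c := by exact_mod_cast hc
  -- the three inequalities
  have key : ∀ C : Curve X,
      ((X.n = 3 ∨ 2 * X.n - 1 ≤ ∑ a with X.d a ≤ 4, (X.d a + 1)) →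
        (2 * X.c - 1) * C.degree ≤ 2 * twoGenusSubTwo k C.L) ∧
      (X.c - 1) * C.degree ≤ twoGenusSubTwo k C.L ∧ X.c * C.degree ≤ 2 * twoGenusSubTwo k C.L := by
    intro C
    obtain ⟨a, b, hb, hab⟩ := nonconstant C
    obtain ⟨h1, h2, h3⟩ := Pool.Agent.H435.CV.main2 (k0 := ℚ) X.dim X.two_le hsum X.hom X.general
      hb hab C.on_surface
    rw [← hcan, ← hdeg] at h1 h2 h3
    refine ⟨fun h => ?_, ?_, ?_⟩
    · have h4 := h1 (by
        rcases h with h | h
        · have := X.dim
          exact Or.inr (by omega)
        · exact Or.inl (by omega))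
      rw [hcs]
      linarith
    · rw [hcs]
      linarith
    · rw [hcs]
      exact h3
  refine ⟨Lambda_le X 4 fun C => ?_, fun h2 => Lambda_le X _ fun C => ?_,
    fun h => Lambda_le X _ fun C => ?_⟩
  · have h3 := (key C).2.2
    have h4 : (X.c : ℝ) * C.degree ≤ 2 * twoGenusSubTwo k C.L := by exact_mod_cast h3
    rw [hgen]
    unfold Curve.canonicalDegree
    linarith
  · have h3 := (key C).2.1
    have h4 : ((X.c : ℝ) - 1) * C.degree ≤ twoGenusSubTwo k C.L := by exact_mod_cast h3
    have h5 : (2 : ℝ) ≤ X.c := by exact_mod_cast h2
    rw [hgen]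
    unfold Curve.canonicalDegree
    rw [div_mul_eq_mul_div, le_div_iff₀ (by linarith)]
    nlinarith [mul_le_mul_of_nonneg_left h4 (by linarith : (0 : ℝ) ≤ X.c)]
  · have h3 := (key C).1 h
    have h4 : (2 * (X.c : ℝ) - 1) * C.degree ≤ 2 * twoGenusSubTwo k C.L := by exact_mod_cast h3
    rw [hgen]
    unfold Curve.canonicalDegree
    rw [div_mul_eq_mul_div, le_div_iff₀ (by linarith)]
    nlinarith [mul_le_mul_of_nonneg_left h4 (by linarith : (0 : ℝ) ≤ X.c)]

end Pool.Agent.Results.MP_308c18_ag.VeryGeneralSurfaces
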